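import Pool.Agent.J4H22.IX.Stm3

set_option autoImplicit false

/-! Project IX, part 3, piece EMB (helper87): more positions, larger values. -/

namespace Pool.Agent.J4H87.IX

open Finset Pool.Agent.J4H22.IX

lemma dm {M a b : ℕ} (hb : b < M) : (a * M + b) / M = a ∧ (a * M + b) % M = b := by
  constructor
  · rw [Nat.add_comm, Nat.add_mul_div_right _ _ (by omega), Nat.div_eq_of_lt hb, zero_add]
  · rw [Nat.add_comm, Nat.add_mul_mod_self_right, Nat.mod_eq_of_lt hb]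

/-- `2 m i + r` becomes `2 m' i + r` -/
def ph (m m' x : ℕ) : ℕ := x / (2 * m) * (2 * m') + x % (2 * m)

lemma ph_dm {m m' : ℕ} (hm : 1 ≤ m) (h : m ≤ m') (x : ℕ) :
    ph m m' x / (2 * m') = x / (2 * m) ∧ ph m m' x % (2 * m') = x % (2 * m) :=
  dm ((Nat.mod_lt _ (by omega)).trans_le (by omega))

lemma ph_inj {m m' : ℕ} (hm : 1 ≤ m) (h : m ≤ m') : Function.Injective (ph m m') := by
  intro x y hxy
  have h1 := ph_dm hm h x
  have h2 := ph_dm hm h y
  rw [hxy] at h1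
  have e1 : x / (2 * m) = y / (2 * m) := h1.1.symm.trans h2.1
  have e2 : x % (2 * m) = y % (2 * m) := h1.2.symm.trans h2.2
  rw [← Nat.div_add_mod x (2 * m), ← Nat.div_add_mod y (2 * m), e1, e2]

lemma ph_add {m m' : ℕ} (hm : 1 ≤ m) (h : m ≤ m') {x y z : ℕ} (hx : x % (2 * m) < m) (hy : y % (2 * m) < m) :
    ph m m' x + ph m m' y = ph m m' z ↔ x + y = z := by
  have e1 := Nat.div_add_mod x (2 * m)
  have e2 := Nat.div_add_mod y (2 * m)
  have e3 := Nat.div_add_mod z (2 * m)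
  have e4 : ph m m' x + ph m m' y =
      (x / (2 * m) + y / (2 * m)) * (2 * m') + (x % (2 * m) + y % (2 * m)) := by
    unfold ph
    ring
  have e5 : x + y = (x / (2 * m) + y / (2 * m)) * (2 * m) + (x % (2 * m) + y % (2 * m)) := by
    conv_lhs => rw [← e1, ← e2]
    ring
  have h1 := dm (M := 2 * m') (a := x / (2 * m) + y / (2 * m)) (b := x % (2 * m) + y % (2 * m)) (by omega)
  have h2 := dm (M := 2 * m) (a := x / (2 * m) + y / (2 * m)) (b := x % (2 * m) + y % (2 * m)) (by omega)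
  have h3 := ph_dm hm h z
  constructor
  · intro he
    rw [e4] at he
    rw [he] at h1
    have a1 : z / (2 * m) = x / (2 * m) + y / (2 * m) := h3.1.symm.trans h1.1
    have a2 : z % (2 * m) = x % (2 * m) + y % (2 * m) := h3.2.symm.trans h1.2
    rw [e5, ← a1, ← a2, mul_comm]
    exact e3
  · intro he
    rw [e4]
    rw [← e5, he] at h2
    unfold ph
    rw [h2.1, h2.2]

lemma rep_ph {m m' : ℕ} (hm : 1 ≤ m) (h : m ≤ m') {A B : Finset ℕ} (hA : ∀ x ∈ A, x % (2 * m) < m)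
    (hB : ∀ x ∈ B, x % (2 * m) < m) (z : ℕ) :
    rep (A.image (ph m m')) (B.image (ph m m')) (ph m m' z) = rep A B z := by
  unfold rep
  symm
  refine card_bij (fun q _ => (ph m m' q.1, ph m m' q.2)) ?_ ?_ ?_
  · rintro ⟨x, y⟩ hq
    rw [mem_filter, mem_product] at hq ⊢
    exact ⟨⟨mem_image_of_mem _ hq.1.1, mem_image_of_mem _ hq.1.2⟩,
      (ph_add hm h (hA _ hq.1.1) (hB _ hq.1.2)).2 hq.2⟩
  · rintro ⟨x, y⟩ _ ⟨x', y'⟩ _ he
    rw [Prod.mk.injEq] at he
    exact Prod.ext (ph_inj hm h he.1) (ph_inj hm h he.2)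
  · rintro ⟨x, y⟩ hq
    rw [mem_filter, mem_product, mem_image, mem_image] at hq
    obtain ⟨⟨⟨a, ha, hax⟩, b, hb, hby⟩, hz⟩ := hq
    dsimp only at hax hby hz
    subst hax
    subst hby
    refine ⟨(a, b), ?_, rfl⟩
    rw [mem_filter, mem_product]
    exact ⟨⟨ha, hb⟩, (ph_add hm h (hA _ ha) (hB _ hb)).1 hz⟩

lemma conv_ph {n n' m m' : ℕ} (hm : 1 ≤ m) (h : m ≤ m') (hn : n ≤ n') {A : Finset ℕ} (hA : ConvSet n m A) :
    ConvSet n' m' (A.image (ph m m')) := by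
  intro y hy
  obtain ⟨x, hx, rfl⟩ := mem_image.1 hy
  obtain ⟨h1, h2, h3⟩ := hA x hx
  obtain ⟨e1, e2⟩ := ph_dm hm h x
  refine ⟨by omega, by omega, ?_⟩
  intro y' hy' he
  obtain ⟨x', hx', rfl⟩ := mem_image.1 hy'
  rw [e1, (ph_dm hm h x').1] at he
  rw [h3 x' hx' he]

theorem t_EMB : S_EMB := by
  intro n n' m m' s w t hn hm hS
  obtain ⟨Q, hQ, hS⟩ := hS
  rcases Nat.eq_zero_or_pos m with h0 | h0
  · subst h0
    have he : ∀ A : Finset ℕ, ConvSet n 0 A → A = ∅ := by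
      intro A hA
      rw [eq_empty_iff_forall_notMem]
      intro x hx
      exact absurd (hA x hx).2.1 (by omega)
    refine ⟨Q, hQ, ?_⟩
    intro A B hA hB
    rw [he A hA, he B hB]
    exact hS ∅ ∅ (fun x hx => absurd hx (notMem_empty _)) (fun x hx => absurd hx (notMem_empty _))
  · refine ⟨fun z => Q (ph m m' z), fun z => hQ _, ?_⟩
    intro A B hA hB
    obtain ⟨M, hM⟩ := hS _ _ (conv_ph h0 hm hn hA) (conv_ph h0 hm hn hB)
    refine ⟨M, fun z => ?_⟩
    have h1 := hM (ph m m' z)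
    unfold OkWeak at h1 ⊢
    rw [rep_ph h0 hm (fun x hx => (hA x hx).2.1) (fun x hx => (hB x hx).2.1)] at h1
    exact h1

end Pool.Agent.J4H87.IX
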